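import Mathlib

/-!
Symplectic hypergeometric systems with a point of maximal unipotent monodromy.
-/

set_option autoImplicit false

namespace GPC

open PowerSeries

/-- The coefficient a_n(e) of the Frobenius series, as a power series in e. -/
noncomputable def hgA {h : ℕ} (α : Fin h → ℚ) (n : ℕ) : ℚ⟦X⟧ :=
  ∏ k ∈ Finset.range n, ((∏ i, (C (k + α i) + X) * (C (k + 1 - α i) + X))
    * ((C (k + 1 : ℚ) + X) ^ (2 * h))⁻¹)

/-- The Wronskian matrix of the Frobenius basis: entry (i, j) is the coefficient of e^j in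
the sum over n of (n + e)^i a_n(e) z^(n + e). -/
noncomputable def hgW {h : ℕ} (α : Fin h → ℚ) (z : ℝ) : Matrix (Fin (2 * h)) (Fin (2 * h)) ℝ :=
  Matrix.of fun i j => ∑ l ∈ Finset.range (j + 1), Real.log z ^ l / l.factorial *
    ∑' n : ℕ, ((coeff (j - l) ((C (n : ℚ) + X) ^ (i : ℕ) * hgA α n) : ℚ) : ℝ) * z ^ n

/-- The antidiagonal alternating matrix. -/
def Jm (h : ℕ) (R : Type) [CommRing R] : Matrix (Fin (2 * h)) (Fin (2 * h)) R :=
  Matrix.of fun i j => if (i : ℕ) + j + 1 = 2 * h then (-1) ^ (i : ℕ) else 0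

end GPC
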